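import Pool.Agent.helper60.EPT.Spec

set_option autoImplicit false

namespace Pool.Agent.EPT

open D

theorem CPL_look (f : D → D) (x : D) (L : List D) (h : x ∈ L) :
    look (ofList (L.map fun y => cons y (f y))) x = f x := by
  unfold look
  rw [toList_ofList]
  induction L with
  | nil => simp at h
  | cons a L ih =>
    rw [List.map_cons, List.find?_cons]
    by_cases hax : a = x
    · simp [hax]
    · have hx : x ∈ L := by
        rcases List.mem_cons.mp h with h' | h'
        · exact absurd h'.symm hax
        · exact h'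
      simp only [fst_cons, hax, decide_false]
      exact ih hx

theorem CPL_memlv (G B u : D) : u ∈ (lv G B).toList ↔ ∃ g ∈ G.toList, ∃ β ∈ B.toList,
    ok g.snd (zp (vc g.snd) β) ∧ u = cons g.fst (zp (vc g.snd) β) := by
  unfold lv
  rw [toList_ofList, List.mem_flatMap]
  constructor
  · rintro ⟨g, hg, hu⟩
    rw [List.mem_map] at hu
    obtain ⟨e, he, rfl⟩ := hu
    rw [List.mem_filter, List.mem_map] at he
    obtain ⟨⟨β, hβ, rfl⟩, hok⟩ := he
    exact ⟨g, hg, β, hβ, by simpa using hok, rfl⟩
  · rintro ⟨g, hg, β, hβ, hok, rfl⟩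
    refine ⟨g, hg, ?_⟩
    rw [List.mem_map]
    refine ⟨zp (vc g.snd) β, ?_, rfl⟩
    rw [List.mem_filter, List.mem_map]
    exact ⟨⟨β, hβ, rfl⟩, by simpa using hok⟩

theorem CPL_vc (ch c : D) (hc : c ∈ ch.toList) :
    c.fst.snd ∈ (vc ch).toList ∧ c.snd.fst.snd ∈ (vc ch).toList ∧ c.snd.snd.snd ∈ (vc ch).toList := by
  unfold vc
  rw [toList_ofList]
  refine ⟨?_, ?_, ?_⟩ <;>
  · rw [List.mem_flatMap]
    exact ⟨c, hc, by simp⟩

theorem CPL (hINJ : INJ_stmt) : CPL_stmt := by
  have _ := hINJ
  intro z G B hnd hz hB hsat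
  obtain ⟨v, hv⟩ := hsat
  let val : D → D := fun x => if v x then one else nil
  let e : D → D := fun g => ofList ((vc g.snd).toList.map fun x => cons x (if v x then one else nil))
  let u : D → D := fun g => cons g.fst (e g)
  have hval : ∀ x, ((if v x then one else nil) : D) ≠ nil ↔ v x = true := by
    intro x
    by_cases h : v x = true
    · simp [h, one]
    · simp [h]
  have hlook : ∀ g x, x ∈ (vc g.snd).toList → look (e g) x = (if v x then one else nil) := by
    intro g x hx
    exact CPL_look (fun x => if v x then one else nil) x _ hx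
  have hok : ∀ g ∈ G.toList, ok g.snd (e g) := by
    intro g hg c hc
    have hcz : c ∈ z.toList := (hz c).mpr ⟨g, hg, hc⟩
    obtain ⟨n1, n2, n3⟩ := CPL_vc g.snd c hc
    rcases hv c hcz with h | h | h
    · left
      unfold lt
      rw [hlook g _ n1, hval]
      exact h
    · right; left
      unfold lt
      rw [hlook g _ n2, hval]
      exact h
    · right; right
      unfold lt
      rw [hlook g _ n3, hval]
      exact h
  have hulv : ∀ g ∈ G.toList, u g ∈ (lv G B).toList := by
    intro g hg
    obtain ⟨β, hβ, hβe⟩ := hB g hg v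
    rw [CPL_memlv]
    refine ⟨g, hg, β, hβ, ?_, ?_⟩
    · rw [hβe]
      exact hok g hg
    · rw [hβe]
  have hcns : ∀ g g', cns (e g) (e g') := by
    intro g g' p hp q hq hpq
    have hp' : p ∈ ((vc g.snd).toList.map fun x => cons x (if v x then one else nil)) := by
      have := hp
      rwa [toList_ofList] at this
    have hq' : q ∈ ((vc g'.snd).toList.map fun x => cons x (if v x then one else nil)) := by
      have := hq
      rwa [toList_ofList] at this
    rw [List.mem_map] at hp' hq'
    obtain ⟨x, hx, rfl⟩ := hp'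
    obtain ⟨y, hy, rfl⟩ := hq'
    rw [fst_cons, fst_cons] at hpq ⊢
    rw [hlook g x hx, hlook g' y hy, hpq]
  have hinj : ∀ g ∈ G.toList, ∀ g' ∈ G.toList, g.fst = g'.fst → g = g' :=
    fun g hg g' hg' h => List.inj_on_of_nodup_map hnd hg hg' h
  classical
  refine ⟨(G.toList.map fun g => st (u g)).toFinset, ?_, ?_, ?_⟩
  · have hnd2 : (G.toList.map fun g => st (u g)).Nodup := by
      apply List.Nodup.of_map fst
      rw [List.map_map]
      exact hnd
    rw [List.toFinset_card_of_nodup hnd2]
    unfold gra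
    simp
  · intro a ha
    rw [List.mem_toFinset, List.mem_map] at ha
    obtain ⟨g, hg, rfl⟩ := ha
    unfold gra
    rw [snd_cons, fst_cons, toList_ofList, List.mem_map]
    exact ⟨u g, hulv g hg, rfl⟩
  · intro a ha b hb hab
    rw [List.mem_toFinset, List.mem_map] at ha hb
    obtain ⟨g, hg, rfl⟩ := ha
    obtain ⟨g', hg', rfl⟩ := hb
    left
    unfold gra
    rw [snd_cons, snd_cons, toList_ofList, List.mem_flatMap]
    refine ⟨u g, hulv g hg, ?_⟩
    rw [List.mem_map]
    refine ⟨u g', ?_, rfl⟩
    rw [List.mem_filter]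
    refine ⟨hulv g' hg', ?_⟩
    have h1 : (u g).fst ≠ (u g').fst := by
      intro h
      apply hab
      rw [hinj g hg g' hg' h]
    have h2 : cns (u g).snd (u g').snd := hcns g g'
    simp only [decide_eq_true_eq]
    exact ⟨h1, h2⟩

end Pool.Agent.EPT
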