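import Pool.Agent.helper60.EPT.Spec

set_option autoImplicit false

namespace Pool.Agent.EPT

open D

theorem MCS_look1 (v : D → D) (x : D) (L : List D) (h : x ∈ L) :
    (((List.zipWith cons L (L.map v)).find? fun p => p.fst = x).getD nil).snd = v x := by
  induction L with
  | nil => simp at h
  | cons a L ih =>
    rw [List.map_cons, List.zipWith_cons_cons, List.find?_cons]
    by_cases hax : a = x
    · simp [hax]
    · have hx : x ∈ L := by
        rcases List.mem_cons.mp h with h' | h'
        · exact absurd h'.symm hax
        · exact h'
      simp only [fst_cons, hax, decide_false]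
      exact ih hx

theorem MCS_look2 (x : D) (L M : List D) (hlen : M.length = L.length) (h : x ∈ L) :
    (((List.zipWith cons L M).find? fun p => p.fst = x).getD nil).snd ∈ M := by
  induction L generalizing M with
  | nil => simp at h
  | cons a L ih =>
    cases M with
    | nil => simp at hlen
    | cons b M =>
      rw [List.zipWith_cons_cons, List.find?_cons]
      by_cases hax : a = x
      · simp [hax]
      · have hx : x ∈ L := by
          rcases List.mem_cons.mp h with h' | h'
          · exact absurd h'.symm hax
          · exact h'
        simp only [fst_cons, hax, decide_false]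
        exact List.mem_cons_of_mem _ (ih M (by simpa using hlen) hx)

theorem MCS (hTUM : TUM_stmt) (hHAG : HAG_stmt) (hDDS : DDS_stmt) : MCS_stmt := by
  intro y
  set X : List D := dd (vars y.snd) with hX
  have hXmem : ∀ a, a ∈ X ↔ a ∈ vars y.snd := (hDDS (vars y.snd)).2
  constructor
  · rintro ⟨v, hv, hh⟩
    refine ⟨?_, ofList (X.map v), ?_, ?_⟩
    · intro hnil
      have := hv nil
      rw [hnil] at this
      simp at this
    · rw [hTUM]
      refine ⟨by simp, ?_⟩
      intro a ha
      rw [toList_ofList, List.mem_map] at ha
      obtain ⟨b, _, rfl⟩ := ha
      exact hv b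
    · rw [← hHAG y.fst.snd.toList v]
      · exact hh
      · intro x hx
        unfold look zp
        rw [toList_ofList, toList_ofList, toList_ofList]
        exact (MCS_look1 v x X ((hXmem x).mpr hx)).symm
  · rintro ⟨hU, l, hl, hh⟩
    rw [hTUM] at hl
    obtain ⟨hlen, hmem⟩ := hl
    rw [toList_ofList] at hlen
    classical
    let v : D → D := fun x => if x ∈ X then look (zp (ofList X) l) x else y.fst.fst.fst
    refine ⟨v, ?_, ?_⟩
    · intro x
      by_cases hx : x ∈ X
      · have h1 : v x = look (zp (ofList X) l) x := if_pos hx
        rw [h1]
        apply hmem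
        unfold look zp
        rw [toList_ofList, toList_ofList]
        exact MCS_look2 x X l.toList hlen hx
      · have h1 : v x = y.fst.fst.fst := if_neg hx
        rw [h1]
        cases hu : y.fst.fst with
        | nil => exact absurd hu hU
        | cons a b => simp
    · rw [hHAG y.fst.snd.toList v (look (zp (ofList X) l))]
      · exact hh
      · intro x hx
        exact if_pos ((hXmem x).mpr hx)

end Pool.Agent.EPT
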