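import Pool.Agent.helper60.EPT.SpecS

set_option autoImplicit false

namespace Pool.Agent.EPT

open D

theorem SBD_double {α : Type} [DecidableEq α] (Λ : Finset α) (F : Finset (Finset α)) (j : ℕ) (h : ∀ C ∈ F, C ⊆ Λ) :
    ∑ l ∈ Λ, deg F j {l} = j * (F.filter fun C => C.card = j).card := by
  have h1 : ∀ l ∈ Λ, deg F j {l} = ∑ C ∈ F.filter (fun C => C.card = j), if l ∈ C then 1 else 0 := by
    intro l _
    unfold deg
    rw [← Finset.card_filter, Finset.filter_filter]
    congr 1
    apply Finset.filter_congr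
    intro C _
    rw [Finset.singleton_subset_iff]
  rw [Finset.sum_congr rfl h1, Finset.sum_comm]
  have h2 : ∀ C ∈ F.filter (fun C => C.card = j), (∑ l ∈ Λ, if l ∈ C then 1 else 0) = j := by
    intro C hC
    rw [Finset.mem_filter] at hC
    rw [← Finset.card_filter]
    have : Λ.filter (fun l => l ∈ C) = C := by
      ext l
      rw [Finset.mem_filter]
      exact ⟨fun h => h.2, fun hl => ⟨h C hC.1 hl, hl⟩⟩
    rw [this, hC.2]
  rw [Finset.sum_congr rfl h2, Finset.sum_const, smul_eq_mul, mul_comm]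

theorem SBD_bound {α : Type} [DecidableEq α] (Λ : Finset α) (F : Finset (Finset α)) (j c : ℕ) (hj : 1 ≤ j)
    (h : ∀ C ∈ F, C ⊆ Λ) (hd : ∀ l, deg F j {l} < c) : j * (F.filter fun C => C.card = j).card ≤ c * Λ.card := by
  have _ := hj
  rw [← SBD_double Λ F j h]
  calc ∑ l ∈ Λ, deg F j {l} ≤ ∑ l ∈ Λ, c := Finset.sum_le_sum fun l _ => (hd l).le
    _ = c * Λ.card := by rw [Finset.sum_const, smul_eq_mul, mul_comm]

theorem SBD_unit {α : Type} [DecidableEq α] (Λ : Finset α) (F : Finset (Finset α)) (h : ∀ C ∈ F, C ⊆ Λ) :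
    UU F ≤ Λ.card := by
  unfold UU
  have hs : (F.filter fun C => C.card = 1) ⊆ Λ.image (fun l => {l}) := by
    intro C hC
    rw [Finset.mem_filter] at hC
    obtain ⟨l, rfl⟩ := Finset.card_eq_one.mp hC.2
    rw [Finset.mem_image]
    exact ⟨l, Finset.singleton_subset_iff.mp (h _ hC.1), rfl⟩
  exact (Finset.card_le_card hs).trans Finset.card_image_le

theorem SBD : SBD_stmt := by
  intro α _ a Λ F hG
  have hU := SBD_unit Λ F hG.sub
  have hT := SBD_bound Λ F 2 (2 * a) (by norm_num) hG.sub hG.deg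
  have hT' : TT F ≤ a * Λ.card := by
    unfold TT
    have : 2 * (F.filter fun C => C.card = 2).card ≤ 2 * (a * Λ.card) := by
      rw [← mul_assoc]
      exact hT
    omega
  refine ⟨hU, ?_, ?_⟩
  · unfold rho
    calc TT F + 2 * a * UU F ≤ a * Λ.card + 2 * a * Λ.card := Nat.add_le_add hT' (Nat.mul_le_mul_left _ hU)
      _ = 3 * a * Λ.card := by ring
  · intro b hL
    have h3 := SBD_bound Λ F 3 b (by norm_num) hG.sub hL.2.2
    have hF : F ⊆ ((F.filter fun C => C.card = 1) ∪ (F.filter fun C => C.card = 2)) ∪ (F.filter fun C => C.card = 3) := by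
      intro C hC
      have := hG.card C hC
      rw [Finset.mem_union, Finset.mem_union, Finset.mem_filter, Finset.mem_filter, Finset.mem_filter]
      rcases (by omega : C.card = 1 ∨ C.card = 2 ∨ C.card = 3) with h | h | h
      · exact Or.inl (Or.inl ⟨hC, h⟩)
      · exact Or.inl (Or.inr ⟨hC, h⟩)
      · exact Or.inr ⟨hC, h⟩
    have hc1 := Finset.card_le_card hF
    have hc2 := Finset.card_union_le ((F.filter fun C => C.card = 1) ∪ (F.filter fun C => C.card = 2)) (F.filter fun C => C.card = 3)
    have hc3 := Finset.card_union_le (F.filter fun C => C.card = 1) (F.filter fun C => C.card = 2)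
    have hU' : (F.filter fun C => C.card = 1).card ≤ Λ.card := hU
    have hT'' : (F.filter fun C => C.card = 2).card ≤ a * Λ.card := hT'
    have h3' : (F.filter fun C => C.card = 3).card ≤ b * Λ.card := by omega
    calc F.card ≤ Λ.card + a * Λ.card + b * Λ.card := by omega
      _ = (1 + a + b) * Λ.card := by ring

end Pool.Agent.EPT
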