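import Pool.Agent.helper60.EPT.Spec

set_option autoImplicit false

namespace Pool.Agent.EPT

open D

theorem SND_memlv (G B u : D) : u ∈ (lv G B).toList ↔ ∃ g ∈ G.toList, ∃ β ∈ B.toList,
    ok g.snd (zp (vc g.snd) β) ∧ u = cons g.fst (zp (vc g.snd) β) := by
  unfold lv
  rw [toList_ofList, List.mem_flatMap]
  constructor
  · rintro ⟨g, hg, hu⟩
    rw [List.mem_map] at hu
    obtain ⟨e, he, rfl⟩ := hu
    rw [List.mem_filter, List.mem_map] at he
    obtain ⟨⟨β, hβ, rfl⟩, hok⟩ := he
    exact ⟨g, hg, β, hβ, by simpa using hok, rfl⟩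
  · rintro ⟨g, hg, β, hβ, hok, rfl⟩
    refine ⟨g, hg, ?_⟩
    rw [List.mem_map]
    refine ⟨zp (vc g.snd) β, ?_, rfl⟩
    rw [List.mem_filter, List.mem_map]
    exact ⟨⟨β, hβ, rfl⟩, by simpa using hok⟩

theorem SND_vc (ch c : D) (hc : c ∈ ch.toList) :
    c.fst.snd ∈ (vc ch).toList ∧ c.snd.fst.snd ∈ (vc ch).toList ∧ c.snd.snd.snd ∈ (vc ch).toList := by
  unfold vc
  rw [toList_ofList]
  refine ⟨?_, ?_, ?_⟩ <;>
  · rw [List.mem_flatMap]
    exact ⟨c, hc, by simp⟩

theorem SND_name (L M : List D) (h : L.length ≤ M.length) (x : D) (hx : x ∈ L) :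
    ∃ p ∈ List.zipWith cons L M, p.fst = x := by
  induction L generalizing M with
  | nil => simp at hx
  | cons a L ih =>
    cases M with
    | nil => simp at h
    | cons b M =>
      rw [List.zipWith_cons_cons]
      rcases List.mem_cons.mp hx with h' | h'
      · exact ⟨cons a b, List.mem_cons_self, h'.symm⟩
      · obtain ⟨p, hp, hpx⟩ := ih M (by simpa using h) h'
        exact ⟨p, List.mem_cons_of_mem _ hp, hpx⟩

theorem SND_look (e x : D) (h : look e x ≠ nil) : ∃ p ∈ e.toList, p.fst = x := by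
  unfold look at h
  cases hf : e.toList.find? (fun p => decide (p.fst = x)) with
  | none =>
    rw [hf] at h
    simp at h
  | some p =>
    have h1 := List.mem_of_find?_eq_some hf
    have h2 := List.find?_some hf
    exact ⟨p, h1, by simpa using h2⟩

theorem SND (hINJ : INJ_stmt) : SND_stmt := by
  intro z G B hnd hz hlen hQ
  classical
  obtain ⟨s, hcard, hvert, hedge⟩ := hQ
  have hcard' : s.card = G.toList.length := by
    rw [hcard]
    unfold gra
    simp
  have hU : ∀ a ∈ s, ∃ u ∈ (lv G B).toList, st u = a := by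
    intro a ha
    have h := hvert a ha
    unfold gra at h
    rw [snd_cons, fst_cons, toList_ofList, List.mem_map] at h
    exact h
  choose! U hU1 hU2 using hU
  have hpair : ∀ a ∈ s, ∀ b ∈ s, cons a b ∈ (gra G B).snd.snd.toList →
      (U a).fst ≠ (U b).fst ∧ cns (U a).snd (U b).snd := by
    intro a ha b hb h
    unfold gra at h
    rw [snd_cons, snd_cons, toList_ofList, List.mem_flatMap] at h
    obtain ⟨u', hu', h⟩ := h
    rw [List.mem_map] at h
    obtain ⟨w', hw', h⟩ := h
    rw [List.mem_filter] at hw'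
    obtain ⟨hw', hc⟩ := hw'
    simp only [decide_eq_true_eq] at hc
    have h1 : st u' = a := congrArg fst h
    have h2 : st w' = b := congrArg snd h
    have e1 : u' = U a := hINJ G B hnd u' hu' (U a) (hU1 a ha) (by rw [h1, hU2 a ha])
    have e2 : w' = U b := hINJ G B hnd w' hw' (U b) (hU1 b hb) (by rw [h2, hU2 b hb])
    rw [e1, e2] at hc
    exact hc
  have hne : ∀ a ∈ s, ∀ b ∈ s, a ≠ b → (U a).fst ≠ (U b).fst ∧
      (cns (U a).snd (U b).snd ∨ cns (U b).snd (U a).snd) := by
    intro a ha b hb hab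
    rcases hedge a ha b hb hab with h | h
    · obtain ⟨h1, h2⟩ := hpair a ha b hb h
      exact ⟨h1, Or.inl h2⟩
    · obtain ⟨h1, h2⟩ := hpair b hb a ha h
      exact ⟨fun h => h1 h.symm, Or.inr h2⟩
  have hinj : ∀ g ∈ G.toList, ∀ g' ∈ G.toList, g.fst = g'.fst → g = g' :=
    fun g hg g' hg' h => List.inj_on_of_nodup_map hnd hg hg' h
  have hsub : s.image (fun a => (U a).fst) ⊆ (G.toList.map fst).toFinset := by
    intro x hx
    rw [Finset.mem_image] at hx
    obtain ⟨a, ha, rfl⟩ := hx
    obtain ⟨g, hg, β, _, _, hu⟩ := (SND_memlv G B (U a)).mp (hU1 a ha)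
    rw [List.mem_toFinset, List.mem_map]
    exact ⟨g, hg, by rw [hu, fst_cons]⟩
  have hci : (s.image (fun a => (U a).fst)).card = s.card := by
    apply Finset.card_image_of_injOn
    intro a ha b hb h
    by_contra hab
    exact (hne a ha b hb hab).1 h
  have heq : s.image (fun a => (U a).fst) = (G.toList.map fst).toFinset := by
    apply Finset.eq_of_subset_of_card_le hsub
    rw [hci, hcard', List.toFinset_card_of_nodup hnd, List.length_map]
  let v : D → Bool := fun x => decide (∃ a ∈ s, look (U a).snd x ≠ nil)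
  have hvx : ∀ a ∈ s, ∀ x : D, (∃ p ∈ (U a).snd.toList, p.fst = x) → (v x = true ↔ look (U a).snd x ≠ nil) := by
    intro a ha x hx
    have e0 : v x = true ↔ ∃ a ∈ s, look (U a).snd x ≠ nil := by
      show decide _ = true ↔ _
      exact decide_eq_true_iff
    rw [e0]
    constructor
    · rintro ⟨b, hb, hbx⟩
      by_cases hab : a = b
      · rw [hab]
        exact hbx
      · obtain ⟨p, hp, hpx⟩ := hx
        obtain ⟨q, hq, hqx⟩ := SND_look _ _ hbx
        rcases (hne a ha b hb hab).2 with h | h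
        · have := h p hp q hq (by rw [hpx, hqx])
          rw [hpx, hqx] at this
          rw [this]
          exact hbx
        · have := h q hq p hp (by rw [hpx, hqx])
          rw [hpx, hqx] at this
          rw [← this]
          exact hbx
    · intro h
      exact ⟨a, ha, h⟩
  refine ⟨v, ?_⟩
  intro c hc
  obtain ⟨g, hg, hcg⟩ := (hz c).mp hc
  have hgm : g.fst ∈ s.image (fun a => (U a).fst) := by
    rw [heq, List.mem_toFinset, List.mem_map]
    exact ⟨g, hg, rfl⟩
  rw [Finset.mem_image] at hgm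
  obtain ⟨a, ha, hag⟩ := hgm
  obtain ⟨g', hg', β, hβ, hok, hu⟩ := (SND_memlv G B (U a)).mp (hU1 a ha)
  have hgg : g' = g := by
    apply hinj g' hg' g hg
    rw [← hag, hu, fst_cons]
  subst hgg
  have hsnd : (U a).snd = zp (vc g'.snd) β := by
    rw [hu, snd_cons]
  have hnames : ∀ x ∈ (vc g'.snd).toList, ∃ p ∈ (U a).snd.toList, p.fst = x := by
    intro x hx
    rw [hsnd]
    unfold zp
    rw [toList_ofList]
    exact SND_name _ _ (hlen g' hg' β hβ) x hx
  have hlit : ∀ l : D, l.snd ∈ (vc g'.snd).toList → lt (zp (vc g'.snd) β) l → LitT v l := by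
    intro l hl h
    unfold LitT
    rw [hvx a ha l.snd (hnames _ hl), hsnd]
    exact h
  obtain ⟨n1, n2, n3⟩ := SND_vc g'.snd c hcg
  rcases hok c hcg with h | h | h
  · exact Or.inl (hlit _ n1 h)
  · exact Or.inr (Or.inl (hlit _ n2 h))
  · exact Or.inr (Or.inr (hlit _ n3 h))

end Pool.Agent.EPT
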